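import Pool.Agent.H44.FB.Basics

set_option autoImplicit false

namespace Pool.Agent.H1.FB

open Pool.Agent.H68.BP Pool.Agent.H58.SF Pool.Agent.H53.NR
open Pool.Agent.H57.AR (tp ty Ty)
open Pool.Agent.H44.KR Pool.Agent.H44.FB
open Function Classical

/-- the Ramsey property for one finite substructure -/
theorem RMU_one {V : Type} {ρ : Sig} {𝔹 : Str ρ V} {L : ℕ} [Nonempty V] (hR : RmL 𝔹 L)
    {J Y : Type} [Finite J] [Nonempty J] [Finite Y] (χ : (J → V) → Y) {X : Type} [Finite X]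
    (G : X → V) (rk : X → ℕ) (hG : Injective G) (hrk : Injective rk) :
    ∃ (G' : X → V) (c : Ty ρ J × (J → J → Prop) → Y), tp 𝔹 G' = tp 𝔹 G ∧
      ∀ a : J → X, χ (fun j => G' (a j)) =
        c (tp 𝔹 (fun j => G (a j)), fun i j => rk (a i) < rk (a j)) := by
  obtain ⟨v⟩ := ‹Nonempty V›
  rcases isEmpty_or_nonempty X with hX | hX
  · obtain ⟨j₀⟩ := ‹Nonempty J›
    exact ⟨G, fun _ => χ fun _ => v, rfl, fun a => (hX.false (a j₀)).elim⟩
  haveI := Fintype.ofFinite X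
  obtain ⟨X', hX', C', hC', hcol⟩ := hR X J Y
    (⟨fun _ => Sum.inr (Sum.inr 0), fun _ => True, fun l z => 𝔹 l (fun i => G (z i))⟩ : GS ρ L X)
    rk ⟨fun _ _ _ _ => trivial, fun g _ x _ y _ => by
      refine ⟨Nat.le_succ _, Nat.le_succ _, fun q q' hq _ => ?_⟩
      simp [reg] at hq, fun Z => ⟨G, fun g _ => ⟨fun x _ y _ h => hG h, fun l z _ => Iff.rfl⟩⟩⟩
    (fun _ => trivial) hrk
  obtain ⟨f', hf'⟩ := hC'.rz (Sum.inr 0)
  obtain ⟨φ, hφ, hcc⟩ := hcol (fun a => χ (fun j => f' (a j)))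
  have hg := hφ.gd Finset.univ trivial
  have hRz := hf' _ hg
  have hm : ∀ x, φ x ∈ {x | x ∈ Finset.univ.image φ ∧ inSh (Sum.inr 0) (C'.pl x)} := by
    intro x
    refine ⟨Finset.mem_image_of_mem _ (Finset.mem_univ _), ?_⟩
    rw [hφ.pl x]
    rfl
  have htp : tp 𝔹 (fun x => f' (φ x)) = tp 𝔹 G := by
    refine Prod.ext ?_ ?_
    · funext a b
      refine propext ⟨fun h => ?_, fun h => ?_⟩
      · have h1 : φ a = φ b := hRz.1 _ (hm a) _ (hm b) h
        exact congrArg G (hφ.inj Finset.univ trivial a (Finset.mem_univ _) b (Finset.mem_univ _) h1)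
      · have h1 : a = b := hG h
        show f' (φ a) = f' (φ b)
        rw [h1]
    · funext l z
      exact propext ((hRz.2 l (fun i => φ (z i)) fun i => hm _).trans
        (hφ.st Finset.univ trivial l z (fun i => Finset.mem_univ _) ⟨Sum.inr 0, fun i => rfl⟩))
  refine ⟨fun x => f' (φ x), fun κ =>
    if h : ∃ a : J → X, (tp 𝔹 (fun j => G (a j)), fun i j => rk (a i) < rk (a j)) = κ then
      χ (fun j => f' (φ (h.choose j))) else χ (fun _ => v), htp, fun a => ?_⟩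
  have h : ∃ a' : J → X, ((tp 𝔹 (fun j => G (a' j)), fun i j => rk (a' i) < rk (a' j)) :
      Ty ρ J × (J → J → Prop)) =
      (tp 𝔹 (fun j => G (a j)), fun i j => rk (a i) < rk (a j)) := ⟨a, rfl⟩
  show _ = dite _ _ _
  rw [dif_pos h]
  have hs := h.choose_spec
  set a' := h.choose with ha'
  refine (hcc a' a ⟨Finset.univ, trivial, fun _ => Finset.mem_univ _⟩
    ⟨Finset.univ, trivial, fun _ => Finset.mem_univ _⟩ ?_).symm
  have h1 := congrArg Prod.fst hs
  have h2 := congrArg Prod.snd hs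
  refine Prod.ext rfl (Prod.ext ?_ (Prod.ext ?_ ?_))
  · funext i j
    have h3 := congrFun (congrFun (congrArg Prod.fst h1) i) j
    have h4 : (G (a' i) = G (a' j)) = (G (a i) = G (a j)) := h3
    refine propext ⟨fun h5 => hG (h4.mp (congrArg G h5)), fun h5 => hG (h4.mpr (congrArg G h5))⟩
  · funext i j
    have h3 : (rk (a' i) < rk (a' j)) = (rk (a i) < rk (a j)) := congrFun (congrFun h2 i) j
    show (_ ∧ rk (a' i) < rk (a' j)) = (_ ∧ rk (a i) < rk (a j))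
    rw [h3]
  · funext l z
    have h3 : 𝔹 l (fun i => G (a' (z i))) = 𝔹 l (fun i => G (a (z i))) :=
      congrFun (congrFun (congrArg Prod.snd h1) l) z
    show (_ ∧ 𝔹 l (fun i => G (a' (z i)))) = (_ ∧ 𝔹 l (fun i => G (a (z i))))
    rw [h3]

theorem RMU_rank {B p q r s : ℕ} (hr : r ≤ B) (hs : s ≤ B) (h : (B + 1) * p + r = (B + 1) * q + s) :
    p = q ∧ r = s := by
  have h1 : p = q := by
    rcases lt_trichotomy p q with h2 | h2 | h2
    · exfalso
      have : (B + 1) * (p + 1) ≤ (B + 1) * q := Nat.mul_le_mul_left _ h2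
      nlinarith
    · exact h2
    · exfalso
      have : (B + 1) * (q + 1) ≤ (B + 1) * p := Nat.mul_le_mul_left _ h2
      nlinarith
  refine ⟨h1, ?_⟩
  rw [h1] at h
  exact Nat.add_left_cancel h

theorem pf_RMU : T_RMU := by
  intro V ρ 𝔹 hB L hR hD J Y hJ hJn hY χ
  haveI := hB.ne
  by_contra hno
  have h1 : ∀ c : Ty ρ J × (J → J → Prop) → Y, ∃ (X : Type) (_ : Finite X) (G : X → V)
      (rk : X → ℕ), Injective G ∧ Injective rk ∧ ¬ ∃ G' : X → V, tp 𝔹 G' = tp 𝔹 G ∧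
      ∀ a : J → X, χ (fun j => G' (a j)) =
        c (tp 𝔹 (fun j => G (a j)), fun i j => rk (a i) < rk (a j)) := by
    intro c
    by_contra h2
    refine hno ⟨c, fun X hX G rk hG hrk => ?_⟩
    by_contra h3
    exact h2 ⟨X, hX, G, rk, hG, hrk, h3⟩
  choose X hX G rk hG hrk hn using h1
  haveI : ∀ c, Finite (X c) := hX
  haveI : Finite (Str ρ J) := by
    unfold Str
    infer_instance
  haveI : Finite (Ty ρ J × (J → J → Prop) → Y) := inferInstance
  obtain ⟨G₁, hG₁, hG₂⟩ := hD _ X G hG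
  obtain ⟨B, hBd⟩ := (Set.finite_range (fun s : (Σ c, X c) => rk s.1 s.2)).bddAbove
  have hB' : ∀ c x, rk c x ≤ B := fun c x => hBd ⟨⟨c, x⟩, rfl⟩
  let e := Finite.equivFin (Ty ρ J × (J → J → Prop) → Y)
  have hinj : Injective (fun s : (Σ c, X c) => (B + 1) * (e s.1 : ℕ) + rk s.1 s.2) := by
    rintro ⟨c, x⟩ ⟨d, y⟩ h
    obtain ⟨h2, h3⟩ := RMU_rank (hB' c x) (hB' d y) h
    have h4 : c = d := e.injective (Fin.ext h2)
    subst h4
    rw [hrk c h3]
  obtain ⟨G₂, c₀, hc1, hc2⟩ := RMU_one hR χ G₁ _ hG₁ hinj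
  refine hn c₀ ⟨fun x => G₂ ⟨c₀, x⟩, ?_, fun a => ?_⟩
  · exact (comp_of_tp hc1 (fun x => (⟨c₀, x⟩ : Σ c, X c))).trans (hG₂ c₀)
  · refine (hc2 fun j => ⟨c₀, a j⟩).trans (congrArg c₀ (Prod.ext ?_ ?_))
    · exact comp_of_tp (hG₂ c₀) a
    · funext i j
      exact propext (Nat.add_lt_add_iff_left)

end Pool.Agent.H1.FB
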